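import Pool.Agent.Lib.H63SO.Defs

set_option autoImplicit false

/-!
# Strict orders of planar bipartite maps: when the gap edge is not between two faces
-/

namespace H63SO

open Equiv Equiv.Perm H71S

variable {D V : Type}

/-- the walk `B, b` starts at `lam (α d)`

PROOF. `Run φ d (B ++ A) d`. If `B = k :: B'` then `φ d = k`, so `lam k = lam (α d)` (`lm_head`). If
`B = []` then `φ d` is the first dart of `A ++ [d]`, whose label is `b`. -/
theorem St.head_RR {c : V → Bool} {b : V} {φ α : Perm D} {lam : D → V} {A B : List D}
    {d : D} (h : St c b φ α lam A d B) : ∃ T, B.map lam ++ [b] = lam (α d) :: T := by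
  sorry

/-- the last dart of `A` ends at `lam d`: if `A = A' ++ [a]` then `φ a = d` -/
theorem St.last_A {c : V → Bool} {b : V} {φ α : Perm D} {lam : D → V} {A' B : List D}
    {a d : D} (h : St c b φ α lam (A' ++ [a]) d B) : φ a = d := by
  sorry

/-- **If `α d` is on the outer face then `d` is pendant at `lam d`.**

PROOF. Write `d' = α d`, `g = lam d ≠ b`, `r = lam d'` (black), `RR = B.map lam ++ [b]`. Remember
`lam (φ x) = lam (α x)` (`lm_head`).
(1) `d' ∈ A`: the dart `φ d'` is the next one in `A ++ [d]` and its label is `lam (α d') = lam d = g`,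
white; the white labels of `A ++ [d]` are distinct (`hW`) and `d` has the label `g`, so `φ d' = d`,
i.e. `d'` is the last dart of `A`.
(2) `d' ∈ B`: the head of `B` has the label `r` (`head_RR`), black; the black labels of `B, b` are
distinct, so `B = d' :: B0`. If `B0 = []` then `φ d'` is the first dart of `A ++ [d]`, so
`b = lam (φ d') = lam d`, excluded. If `B0 = k :: B1` then `lam k = g`, `k` is live and `k ≠ d`. The next
vertex of the walk `B, b` after `lam k`, which is `lam (φ k) = lam (α k)`, is in `RR` (it is the label
of the head of `B1`, or `b` if `B1 = []`): this contradicts `hok` for `x = k`. -/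
theorem pend_cls [Finite D] {c : V → Bool} {b : V} {φ α : Perm D} {lam : D → V} {A B : List D}
    {d : D} (h : St c b φ α lam A d B) (hd : α d ∈ B ++ A) (hb : lam d ≠ b)
    (hok : Ok α lam d (B.map lam ++ [b])) : ∃ A0, A = A0 ++ [α d] := by
  sorry

end H63SO
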