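import Pool.Agent.Lib.H63SO.Cross
import Pool.Agent.Lib.H63SO.Cls

set_option autoImplicit false

/-!
# Strict orders of planar bipartite maps: one of the two ends of the gap edge can be removed
-/

namespace H63SO

open Equiv Equiv.Perm H71S

variable {D V : Type}

/-- **One of the two ends of the gap edge can be removed.**

PROOF. `g = lam d` white, `r = lam (α d)` black, `LL = (A ++ [d]).map lam`, `RR = B.map lam ++ [b]`.
(1) `g = b`: then `r ≠ b`. `A = []`, since otherwise the first dart of `A` and `d` have the same white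
label `b` (`base`, `hW`). So `LL = [g]`, and if `x` is live, `lam x = r`, `x ≠ α d`, `lam (α x) = g`, then
`α x = d` by `simple`, so `x = α d`: the right alternative holds.
(2) `g ≠ b`, and the left alternative fails: there is a live `y0 ≠ d`, `lam y0 = g`,
`u = lam (α y0) ∈ RR`; `u` is black and `u ≠ r` (`simple`). `r ≠ b`: the list `RR` starts with `r`
(`head_RR`) and ends with `b`; if `r = b` then (`hB`) `RR = [r]`, and `u = r`. Suppose the right
alternative fails too: there is a live `x0 ≠ α d`, `lam x0 = r`, `w = lam (α x0) ∈ LL`; `w` is white and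
`w ≠ g` (`simple`), so `w = lam x` with `x ∈ A`. `B = k :: B'` with `lam k = r` (`B = []` gives `r = b`).
(2a) `u = lam y` with `y ∈ B`: `y ∈ B'` as `u ≠ r`; `B' = B1 ++ y :: B2`; `crossing` with
`l1 = k :: B1`, `l2 = B2 ++ A`.
(2b) `u = b`: `b` is black, `A = s :: A'` with `lam s = b` (`base`, `g ≠ b`), `x ∈ A'` since `w ≠ b` (colours);
`crossing` with `y := s`, `l1 = B`, `l2 = A'`. -/
theorem alt [Finite D] {c : V → Bool} {b : V} {φ α : Perm D} {lam : D → V} {A B : List D}
    {d : D} (h : St c b φ α lam A d B) :
    (lam d ≠ b ∧ Ok α lam d (B.map lam ++ [b])) ∨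
      (lam (α d) ≠ b ∧ Ok α lam (α d) (((A ++ [d]).map lam).reverse)) := by
  sorry

end H63SO
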