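import Pool.Agent.Lib.H63SO.CDefs

set_option autoImplicit false

/-!
# Strict orders of planar bipartite maps: completion, number of edges
-/

namespace H63SO

open Equiv Equiv.Perm H71S

variable {D V : Type}

/-- PROOF. `cyc_ge` (see `H71S/Stel.lean`; `exists_g7`, `exists_ite`, `cases7`) with the invariant
`g : D × Fin 7 → Quotient (SameCycle.setoid α) ⊕ ((D × Bool) ⊕ ({d // T d} ⊕ ({d // ¬ T d} × Bool)))`:
`g (d,0) = inl [d]`, `g (d,1) = g (d,2) = inr (inl (d, false))`, `g (d,3) = g (d,4) = inr (inl (d, true))`,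
`g (d,5) = g (d,6) = inr (inr (inl d))` if `T d`, `g (d,5) = inr (inr (inr (d, false)))`,
`g (d,6) = inr (inr (inr (d, true)))` if not. -/
theorem cA_count [Finite D] {φ α : Perm D} {T : D → Prop} {F A : Perm (D × Fin 7)}
    (h : CP φ α T F A) :
    cyc α + (2 * Nat.card D + (Nat.card {d // T d} + 2 * Nat.card {d // ¬ T d})) ≤ cyc A := by
  sorry

end H63SO
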