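import Pool.Agent.Lib.H63SO.CLm

set_option autoImplicit false

/-!
# Strict orders of planar bipartite maps: completion, the bipartite map
-/

namespace H63SO

open Equiv Equiv.Perm H71S

variable {D V : Type}

/-- PROOF. `comp_lm` (`T (φ d) ↔ ¬ T d` since `lam (φ d) = lam (α d)`, `lm_head`). `col`: `cases7`.
`simple`: by the labels of the two ends the types of the two darts agree, or they are `(d,3)` and
`(e,4)` (or conversely) with `d = φ e`, `φ d = e`, excluded by `h2`. Equal types: `(d,0)`: `h.simple`;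
`(d,1)`, `(d,2)`, `(d,3)`, `(d,5)`, `(d,6)`: one of the ends is `inr (inl d)`; `(d,4)`: an end is `inr (inl d)`. -/
theorem comp_bm [Finite D] {c : V → Bool} {φ α : Perm D} {lam : D → V}
    {F A : Perm (D × Fin 7)} (h : BM c φ α lam) (hα : ∀ d, α d ≠ d) (h2 : ∀ d, φ (φ d) ≠ d)
    (hC : CP φ α (fun d => c (lam d) = true) F A) : BM (cc φ c lam) F A (cL φ lam) := by
  sorry

/-- PROOF. `cases7`: `(d,0) → (φ d,1) → (d,4) → (d,2) → (d,0)` and `(d,6) → (d,3) → (φ d,3) → (φ φ d,5) →
(d,6)` for `T d`. -/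
theorem comp_quad {φ α : Perm D} {T : D → Prop} {F A : Perm (D × Fin 7)}
    (hT : ∀ d, T (φ d) ↔ ¬ T d) (hC : CP φ α T F A) :
    ∀ x, A x ≠ x → F (F (F (F x))) = x := by
  sorry

end H63SO
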