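import Pool.Agent.Lib.H63SO.CDefs

set_option autoImplicit false

/-!
# Strict orders of planar bipartite maps: completion, components
-/

namespace H63SO

open Equiv Equiv.Perm H71S

variable {D V : Type}

/-- PROOF. `(d,2) ~ (d,0)` (`F`), `(d,1) ~ (d,2)` (`A`), `(d,4) ~ (d,2)` (`F`), `(d,3) ~ (d,4)` (`A`), and
if `T d`: `(d,6) ~ (d,3)` (`F`), `(d,5) ~ (d,6)` (`A`). -/
theorem cC_zero {φ α : Perm D} {T : D → Prop} {F A : Perm (D × Fin 7)} (h : CP φ α T F A)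
    (x : D × Fin 7) (hx : A x ≠ x) : cs F A x (x.1, 0) := by
  sorry

/-- PROOF. `cs_le` for the setoid `cs F A (a, 0) (b, 0)`: `F (d,0) = (φ d, 1)` and `(φ d, 1) ~ (φ d, 0)`
(`A`, `F`); `A (d,0) = (α d, 0)`. -/
theorem cC_lift {φ α : Perm D} {T : D → Prop} {F A : Perm (D × Fin 7)} (h : CP φ α T F A)
    {a b : D} (hab : cs φ α a b) : cs F A (a, 0) (b, 0) := by
  sorry

/-- PROOF. `comps_le` with `h : Quotient (cs φ α) ⊕ ({d // ¬ T d} × Bool) → D × Fin 7`,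
`inl q ↦ (q.out, 0)`, `inr (d, false) ↦ (d,5)`, `inr (d, true) ↦ (d,6)`; `cC_zero`, `cC_lift`. -/
theorem cC_count [Finite D] {φ α : Perm D} {T : D → Prop} {F A : Perm (D × Fin 7)}
    (h : CP φ α T F A) (hα : ∀ d, α d ≠ d) :
    comps F A ≤ comps φ α + 2 * Nat.card {d // ¬ T d} := by
  sorry

end H63SO
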