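import Pool.Agent.Lib.H63SO.Defs

set_option autoImplicit false

/-!
# Completion of a map to a quadrangulation: the two permutations

All darts are live. For a dart `d` from `v_d = lam d` to `v_(φ d)` there is a new vertex `c_d` (in
the corner of the face of `d` at `v_d`) and, for each face, a centre `z`. `T d` holds iff `v_d`
is white; the centre is joined to the `c_d` with `T d`. The darts of the new map are
`(d,0) : v_d → v_(φ d)`, `(d,1) : v_d → c_d`, `(d,2) : c_d → v_d`, `(d,3) : c_d → c_(φ d)`,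
`(d,4) : c_(φ d) → c_d`, and, if `T d`, `(d,5) : c_d → z`, `(d,6) : z → c_d`. If `T d` does not
hold, `(d,5)` and `(d,6)` are dead. The faces are
`(d,0), (φ d,1), (d,4), (d,2)` for all `d`, and `(d,6), (d,3), (φ d,3), (φ φ d,5)` for `T d`.
-/

namespace H63SO

open Equiv Equiv.Perm H71S

variable {D V : Type}

section

variable (φ α : Perm D) (T : D → Prop) [DecidablePred T]

def cF : D × Fin 7 → D × Fin 7
  | (d, 0) => (φ d, 1)
  | (d, 1) => (φ⁻¹ d, 4)
  | (d, 2) => (d, 0)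
  | (d, 3) => if T d then (φ d, 3) else (φ d, 5)
  | (d, 4) => (d, 2)
  | (d, 5) => if T d then (φ⁻¹ (φ⁻¹ d), 6) else (d, 5)
  | (d, 6) => if T d then (d, 3) else (d, 6)

def cF' : D × Fin 7 → D × Fin 7
  | (d, 0) => (d, 2)
  | (d, 1) => (φ⁻¹ d, 0)
  | (d, 2) => (d, 4)
  | (d, 3) => if T d then (d, 6) else (φ⁻¹ d, 3)
  | (d, 4) => (φ d, 1)
  | (d, 5) => if T d then (φ⁻¹ d, 3) else (d, 5)
  | (d, 6) => if T d then (φ (φ d), 5) else (d, 6)

def cA : D × Fin 7 → D × Fin 7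
  | (d, 0) => (α d, 0)
  | (d, 1) => (d, 2)
  | (d, 2) => (d, 1)
  | (d, 3) => (d, 4)
  | (d, 4) => (d, 3)
  | (d, 5) => if T d then (d, 6) else (d, 5)
  | (d, 6) => if T d then (d, 5) else (d, 6)

end

theorem cases7 {E : Type} {P : E × Fin 7 → Prop} (h0 : ∀ d, P (d, 0)) (h1 : ∀ d, P (d, 1))
    (h2 : ∀ d, P (d, 2)) (h3 : ∀ d, P (d, 3)) (h4 : ∀ d, P (d, 4)) (h5 : ∀ d, P (d, 5))
    (h6 : ∀ d, P (d, 6)) : ∀ x, P x := by
  rintro ⟨d, i⟩
  fin_cases i
  · exact h0 d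
  · exact h1 d
  · exact h2 d
  · exact h3 d
  · exact h4 d
  · exact h5 d
  · exact h6 d

theorem exists_g7 {E C : Type} (a0 a1 a2 a3 a4 a5 a6 : E → C) : ∃ g : E × Fin 7 → C,
    (∀ d, g (d, 0) = a0 d) ∧ (∀ d, g (d, 1) = a1 d) ∧ (∀ d, g (d, 2) = a2 d) ∧
    (∀ d, g (d, 3) = a3 d) ∧ (∀ d, g (d, 4) = a4 d) ∧ (∀ d, g (d, 5) = a5 d) ∧
    (∀ d, g (d, 6) = a6 d) :=
  ⟨fun x => ![a0 x.1, a1 x.1, a2 x.1, a3 x.1, a4 x.1, a5 x.1, a6 x.1] x.2, fun _ => rfl,
    fun _ => rfl, fun _ => rfl, fun _ => rfl, fun _ => rfl, fun _ => rfl, fun _ => rfl⟩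

theorem exists_ite {E C : Type} (U : E → Prop) (p : ∀ d, U d → C) (q : ∀ d, ¬ U d → C) :
    ∃ a : E → C, (∀ d (hd : U d), a d = p d hd) ∧ (∀ d (hd : ¬ U d), a d = q d hd) := by
  classical
  exact ⟨fun d => if hd : U d then p d hd else q d hd, fun d hd => dif_pos hd,
    fun d hd => dif_neg hd⟩

/-- the permutations of the completed map -/
structure CP (φ α : Perm D) (T : D → Prop) (F A : Perm (D × Fin 7)) : Prop where
  F0 : ∀ d, F (d, 0) = (φ d, 1)
  F1 : ∀ d, F (d, 1) = (φ⁻¹ d, 4)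
  F2 : ∀ d, F (d, 2) = (d, 0)
  F3 : ∀ d, T d → F (d, 3) = (φ d, 3)
  F3' : ∀ d, ¬ T d → F (d, 3) = (φ d, 5)
  F4 : ∀ d, F (d, 4) = (d, 2)
  F5 : ∀ d, T d → F (d, 5) = (φ⁻¹ (φ⁻¹ d), 6)
  F5' : ∀ d, ¬ T d → F (d, 5) = (d, 5)
  F6 : ∀ d, T d → F (d, 6) = (d, 3)
  F6' : ∀ d, ¬ T d → F (d, 6) = (d, 6)
  A0 : ∀ d, A (d, 0) = (α d, 0)
  A1 : ∀ d, A (d, 1) = (d, 2)
  A2 : ∀ d, A (d, 2) = (d, 1)
  A3 : ∀ d, A (d, 3) = (d, 4)
  A4 : ∀ d, A (d, 4) = (d, 3)
  A5 : ∀ d, T d → A (d, 5) = (d, 6)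
  A5' : ∀ d, ¬ T d → A (d, 5) = (d, 5)
  A6 : ∀ d, T d → A (d, 6) = (d, 5)
  A6' : ∀ d, ¬ T d → A (d, 6) = (d, 6)

theorem exists_CP (φ α : Perm D) (T : D → Prop) (hα : ∀ d, α (α d) = d)
    (hT : ∀ d, T (φ d) ↔ ¬ T d) : ∃ F A : Perm (D × Fin 7), CP φ α T F A := by
  classical
  have φφ : ∀ d, φ (φ⁻¹ d) = d := fun d => φ.apply_symm_apply d
  have φφ' : ∀ d, φ⁻¹ (φ d) = d := fun d => φ.symm_apply_apply d
  have hT' : ∀ d, T (φ⁻¹ d) ↔ ¬ T d := fun d => by
    have := hT (φ⁻¹ d)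
    rw [φφ] at this
    tauto
  have l : ∀ x, cF' φ T (cF φ T x) = x := by
    refine cases7 ?_ ?_ ?_ ?_ ?_ ?_ ?_ <;> intro d
    · change (φ⁻¹ (φ d), 0) = ((d, 0) : D × Fin 7)
      rw [φφ']
    · change (φ (φ⁻¹ d), 1) = ((d, 1) : D × Fin 7)
      rw [φφ]
    · rfl
    · by_cases h : T d
      · have h2 : ¬ T (φ d) := fun hc => (hT d).1 hc h
        simp only [cF, cF', if_pos h, if_neg h2, φφ']
      · have h2 : T (φ d) := (hT d).2 h
        simp only [cF, cF', if_neg h, if_pos h2, φφ']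
    · rfl
    · by_cases h : T d
      · have h2 : T (φ⁻¹ (φ⁻¹ d)) := (hT' _).2 (fun hc => (hT' d).1 hc h)
        simp only [cF, cF', if_pos h, if_pos h2, φφ]
      · simp only [cF, cF', if_neg h]
    · by_cases h : T d
      · simp only [cF, cF', if_pos h]
      · simp only [cF, cF', if_neg h]
  have r : ∀ x, cF φ T (cF' φ T x) = x := by
    refine cases7 ?_ ?_ ?_ ?_ ?_ ?_ ?_ <;> intro d
    · rfl
    · change (φ (φ⁻¹ d), 1) = ((d, 1) : D × Fin 7)
      rw [φφ]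
    · rfl
    · by_cases h : T d
      · simp only [cF, cF', if_pos h]
      · have h2 : T (φ⁻¹ d) := (hT' d).2 h
        simp only [cF, cF', if_neg h, if_pos h2, φφ]
    · change (φ⁻¹ (φ d), 4) = ((d, 4) : D × Fin 7)
      rw [φφ']
    · by_cases h : T d
      · have h2 : ¬ T (φ⁻¹ d) := fun hc => (hT' d).1 hc h
        simp only [cF, cF', if_pos h, if_neg h2, φφ]
      · simp only [cF, cF', if_neg h]
    · by_cases h : T d
      · have h2 : T (φ (φ d)) := (hT _).2 (fun hc => (hT d).1 hc h)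
        simp only [cF, cF', if_pos h, if_pos h2, φφ']
      · simp only [cF, cF', if_neg h]
  have a : Function.Involutive (cA α T) := by
    refine cases7 ?_ ?_ ?_ ?_ ?_ ?_ ?_ <;> intro d
    · change (α (α d), 0) = ((d, 0) : D × Fin 7)
      rw [hα]
    · rfl
    · rfl
    · rfl
    · rfl
    · by_cases h : T d
      · simp only [cA, if_pos h]
      · simp only [cA, if_neg h]
    · by_cases h : T d
      · simp only [cA, if_pos h]
      · simp only [cA, if_neg h]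
  refine ⟨⟨cF φ T, cF' φ T, l, r⟩, a.toPerm _, ?_⟩
  constructor
  · exact fun d => rfl
  · exact fun d => rfl
  · exact fun d => rfl
  · exact fun d h => if_pos h
  · exact fun d h => if_neg h
  · exact fun d => rfl
  · exact fun d h => if_pos h
  · exact fun d h => if_neg h
  · exact fun d h => if_pos h
  · exact fun d h => if_neg h
  · exact fun d => rfl
  · exact fun d => rfl
  · exact fun d => rfl
  · exact fun d => rfl
  · exact fun d => rfl
  · exact fun d h => if_pos h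
  · exact fun d h => if_neg h
  · exact fun d h => if_pos h
  · exact fun d h => if_neg h

end H63SO
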