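import Pool.Agent.Lib.H63SO.CDefs

set_option autoImplicit false

/-!
# Strict orders of planar bipartite maps: completion, number of faces
-/

namespace H63SO

open Equiv Equiv.Perm H71S

variable {D V : Type}

/-- PROOF. `cyc_ge` (see `H71S/Stel.lean` for the same kind of proof; `exists_g7`, `exists_ite`,
`cases7`) with the invariant `g : D × Fin 7 → D ⊕ ({d // T d} ⊕ ({d // ¬ T d} × Bool))`:
`g (d,0) = g (d,2) = g (d,4) = inl d`, `g (d,1) = inl (φ⁻¹ d)`; `g (d,3) = g (d,6) = inr (inl d)` and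
`g (d,5) = inr (inl (φ⁻¹ (φ⁻¹ d)))` if `T d`; `g (d,3) = inr (inl (φ⁻¹ d))`, `g (d,5) = inr (inr (d, false))`,
`g (d,6) = inr (inr (d, true))` if not. (`T (φ⁻¹ d) ↔ ¬ T d`.) -/
theorem cF_count [Finite D] {φ α : Perm D} {T : D → Prop} {F A : Perm (D × Fin 7)}
    (h : CP φ α T F A) (hT : ∀ d, T (φ d) ↔ ¬ T d) :
    Nat.card D + (Nat.card {d // T d} + 2 * Nat.card {d // ¬ T d}) ≤ cyc F := by
  sorry

end H63SO
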