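import Pool.Agent.Lib.H63SO.CDefs

set_option autoImplicit false

/-!
# Strict orders of planar bipartite maps: completion, labels and colours
-/

namespace H63SO

open Equiv Equiv.Perm H71S

variable {D V : Type}

/-- the initial vertices of the new darts -/
def cL (φ : Perm D) (lam : D → V) :
    D × Fin 7 → V ⊕ (D ⊕ Quotient (SameCycle.setoid φ))
  | (d, 0) => Sum.inl (lam d)
  | (d, 1) => Sum.inl (lam d)
  | (d, 2) => Sum.inr (Sum.inl d)
  | (d, 3) => Sum.inr (Sum.inl d)
  | (d, 4) => Sum.inr (Sum.inl (φ d))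
  | (d, 5) => Sum.inr (Sum.inl d)
  | (d, 6) => Sum.inr (Sum.inr (Quotient.mk _ d))

/-- the new colours -/
def cc (φ : Perm D) (c : V → Bool) (lam : D → V) :
    V ⊕ (D ⊕ Quotient (SameCycle.setoid φ)) → Bool
  | Sum.inl v => c v
  | Sum.inr (Sum.inl d) => !c (lam d)
  | Sum.inr (Sum.inr _) => true

end H63SO
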