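import Pool.Agent.Lib.H63SO.CDefs

set_option autoImplicit false

/-!
# Strict orders of planar bipartite maps: completion, number of vertices
-/

namespace H63SO

open Equiv Equiv.Perm H71S

variable {D V : Type}

/-- PROOF. First the values of `F * A`: `(d,0) ↦ (φ (α d), 1)`, `(d,1) ↦ (d,0)`, `(d,2) ↦ (φ⁻¹ d, 4)`,
`(d,3) ↦ (d,2)`, `(d,4) ↦ (φ d, 3)` if `T d`, `(φ d, 5)` if not, and if `T d` then `(d,5) ↦ (d,3)`,
`(d,6) ↦ (φ⁻¹ (φ⁻¹ d), 6)`; if not, `(d,5)` and `(d,6)` are fixed. Then `cyc_ge` (see `H71S/Stel.lean`) with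
`g : D × Fin 7 → Quotient (SameCycle.setoid (φ * α)) ⊕ (D ⊕ (Quotient (SameCycle.setoid φ) ⊕
({d // ¬ T d} × Bool)))`: `g (d,0) = g (d,1) = inl [d]`, `g (d,2) = g (d,3) = inr (inl d)`,
`g (d,4) = inr (inl (φ d))`, `g (d,5) = inr (inl d)`, `g (d,6) = inr (inr (inl [d]))` if `T d`, and
`g (d,5) = inr (inr (inr (d, false)))`, `g (d,6) = inr (inr (inr (d, true)))` if not. Surjective: in the
class `[d]` of `φ` one of `d`, `φ d` satisfies `T`. -/
theorem cS_count [Finite D] {φ α : Perm D} {T : D → Prop} {F A : Perm (D × Fin 7)}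
    (h : CP φ α T F A) (hT : ∀ d, T (φ d) ↔ ¬ T d) :
    cyc (φ * α) + (Nat.card D + (cyc φ + 2 * Nat.card {d // ¬ T d})) ≤ cyc (F * A) := by
  sorry

end H63SO
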