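import Pool.Agent.Lib.H63SO.CFc
import Pool.Agent.Lib.H63SO.CAc
import Pool.Agent.Lib.H63SO.CSc
import Pool.Agent.Lib.H63SO.CCc
import Pool.Agent.Lib.H63SO.CLab

set_option autoImplicit false

/-!
# Strict orders of planar bipartite maps: completion, the labelled map
-/

namespace H63SO

open Equiv Equiv.Perm H71S

variable {D V : Type}

/-- PROOF. `inv`: from the equations of `CP`. `g0`: `G0_of_le` and the four counting theorems:
with `t = |T|`, `N = |D| - t`, `cyc φ + cyc α + cyc (φ * α) = |D| + 2 comps φ α` (`h.g0`),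
`7 |D| + 2 (comps φ α + 2 N) ≤ (|D| + t + 2 N) + (cyc α + 2 |D| + t + 2 N) + (cyc (φ * α) + |D| + cyc φ + 2 N)`
(an equality). `vert`: `cases7` with the values of `F * A` (see `CSc.lean`). `dead`: only `(d,5)`,
`(d,6)` with `¬ T d` are fixed by `A` (`hα`). `dist`: live darts with the label `inl v` are `(d,0)`, `(d,1)` with
`lam d = v`: `(F * A) (d,1) = (d,0)`, `(F * A) ((F * A) (d,0)) = (φ (α d), 0)`, and `LM.dist` with `sc_le` for the
setoid `SameCycle (F * A) (a,0) (b,0)`. Label `inr (inl d)`: `(d,2)`, `(d,3)`, `(φ⁻¹ d, 4)`, `(d,5)`; they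
are in one cycle by the values. Label `inr (inr [d])`: `(e,6)` with `T e`, `SameCycle φ d e`: let
`ρ x = (x,6)` if `T x`, `(φ x, 6)` if not; `SameCycle (F * A) (ρ x) (ρ (φ x))` for all `x`, since
`(F * A) (φ (φ x), 6) = (x, 6)` if `T x`, and `ρ x = ρ (φ x)` if not; then `sc_le`. -/
theorem comp_lm [Finite D] {φ α : Perm D} {lam : D → V} {T : D → Prop}
    {F A : Perm (D × Fin 7)} (h : LM φ α lam) (hα : ∀ d, α d ≠ d)
    (hT : ∀ d, T (φ d) ↔ ¬ T d) (hC : CP φ α T F A) : LM F A (cL φ lam) := by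
  sorry

end H63SO
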