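import Pool.Agent.Lib.H63SO.Defs

set_option autoImplicit false

/-!
# Strict orders of planar bipartite maps: one component
-/

namespace H63SO

open Equiv Equiv.Perm H71S

variable {D V : Type}

/-- **Keeping the edges in a set.**

PROOF. Induction on the number of live darts `d` with `¬ K d`. If there is one, `LM.del` for `r = d`,
`r' = α d` (`¬ K (α d)`), which is in `Killed` form: `col`, `simple` are inherited (a dart that is live
afterwards is live before, `α2 = α` there). Number: the set of the live darts outside of `K` loses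
`d`. -/
theorem keep [Finite D] {c : V → Bool} {φ α : Perm D} {lam : D → V} (h : BM c φ α lam)
    (K : D → Prop) (hK : ∀ d, K (α d) ↔ K d) :
    ∃ φ2 α2 : Perm D, BM c φ2 α2 lam ∧ (∀ d, K d → α2 d = α d) ∧
      (∀ d, ¬ K d → α2 d = d) := by
  sorry

/-- PROOF. For `x` with `K x`, `x` live: `α x` and `φ x` have the same label (`lm_head`) and are live for
`α2`, so `LM.dist` of the new map gives `cs φ2 α2 (α x) (φ x)`, and `α2 x = α x`: so
`cs φ2 α2 x (φ x)`. Then `cs_le` with the setoid: both not in `K`, or both in `K` and related by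
`cs φ2 α2` (dead darts are fixed by `φ` and `α`). -/
theorem keep_conn [Finite D] {c : V → Bool} {φ α φ2 α2 : Perm D} {lam : D → V}
    (h : BM c φ α lam) (h2 : BM c φ2 α2 lam) {x0 : D}
    (h3 : ∀ d, cs φ α x0 d → α2 d = α d) (h4 : ∀ d, ¬ cs φ α x0 d → α2 d = d) :
    ∀ x y, α2 x ≠ x → α2 y ≠ y → cs φ2 α2 x y := by
  sorry

end H63SO
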