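import Pool.Agent.Lib.H63SO.CBm

set_option autoImplicit false

/-!
# Strict orders of planar bipartite maps: the initial state
-/

namespace H63SO

open Equiv Equiv.Perm H71S

variable {D V : Type}

/-- PROOF. `φ x` and `α x` have the same label (`lm_head`); `lam (α (φ x)) = lam (φ (φ x)) = lam x =
lam (α (α x))`, so `φ x = α x` by `simple`; then `φ (α x) = x`. The set `{x, α x}` is closed under `φ`
and `α`, `cs_le` with the setoid `a ∈ {x, α x} ↔ b ∈ {x, α x}`. -/
theorem digon [Finite D] {c : V → Bool} {φ α : Perm D} {lam : D → V} (h : BM c φ α lam)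
    (hα : ∀ d, α d ≠ d) {x : D} (hx : φ (φ x) = x) :
    ∀ y, cs φ α x y → y = x ∨ y = α x := by
  sorry

/-- **The initial state.** `x0` starts at a white vertex; the outer face of the completed map is
`(x0,0), (φ x0,1), (x0,4), (x0,2)`.

PROOF. `bm`: `comp_bm`. `conn`: `cC_zero`, `cC_lift`. `run`, `nd`: the equations of `CP`. `quad`: `comp_quad`
(`T (φ d) ↔ ¬ T d` by `lm_head` and `col`). `white`, `base`, `hW`: `A = []`. `hB`: the labels of `B, b` are
`inl (lam (φ x0))` (black), `inr (inl (φ x0))` (colour `!c (lam (φ x0)) = true`), `inr (inl x0)` (black),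
`inl (lam x0)` (white). -/
theorem init_st [Finite D] {c : V → Bool} {φ α : Perm D} {lam : D → V} (h : BM c φ α lam)
    (hα : ∀ d, α d ≠ d) (hconn : ∀ x y, cs φ α x y) (h2 : ∀ d, φ (φ d) ≠ d)
    {F A : Perm (D × Fin 7)} (hC : CP φ α (fun d => c (lam d) = true) F A) {x0 : D}
    (hx : c (lam x0) = true) :
    St (cc φ c lam) (Sum.inl (lam x0)) F A (cL φ lam) [] (x0, 0)
      [(φ x0, 1), (x0, 4), (x0, 2)] := by
  sorry

end H63SO
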