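import Pool.Agent.Lib.H63SO.Sub1

set_option autoImplicit false

/-!
# Strict orders of planar bipartite maps: removal of the dead darts
-/

namespace H63SO

open Equiv Equiv.Perm H71S

variable {D V : Type}

/-- **Removal of the dead darts.**

PROOF. `P d := α d ≠ d`; `φ` and `α` preserve `P` (`lm_live`, `inv`): `φs`, `αs` =
`Equiv.Perm.subtypePerm`. `g0`: `G0_of_le` from `h.lm.g0`, `cyc_sub` for `φ`, `α`, `φ * α`, `comps_sub`
(`dead`) and `|D| = |P| + |not P|` (`Equiv.sumCompl`). `dist`: a cycle of `φ * α` through live darts is a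
cycle of `φs * αs` (induction on the exponent, `SameCycle.exists_nat_pow_eq`, or `sc_le`). Last
claim: `cs_le` with the setoid: both dead and equal, or both live and related in the new map. -/
theorem live_sub [Finite D] {c : V → Bool} {φ α : Perm D} {lam : D → V} (h : BM c φ α lam) :
    ∃ φs αs : Perm {d // α d ≠ d}, (∀ x, (φs x : D) = φ x) ∧ (∀ x, (αs x : D) = α x) ∧
      BM c φs αs (fun x => lam x) ∧
      ∀ x y : {d // α d ≠ d}, cs φ α (x : D) (y : D) → cs φs αs x y := by
  sorry

end H63SO
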