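import Pool.Agent.Lib.H63SO.Peel
import Pool.Agent.Lib.H63SO.Init
import Pool.Agent.Lib.H63SO.Sub2

set_option autoImplicit false

/-!
# Strict orders of planar bipartite maps: connected maps
-/

namespace H63SO

open Equiv Equiv.Perm H71S

variable {D V : Type}

/-- **Connected maps, all darts live.**

PROOF. If `φ (φ x) = x` for some `x`: by `digon` and `hconn` the darts are `x`, `α x`; `p (lam x) = 0`, `p = 1`
otherwise; no three different values. Otherwise (if `D` is empty, `p = 0`) let `x0` be a dart with
`c (lam x0) = true` (one of `x`, `α x`), `exists_CP`, `init_st`, `good_exists` give `q` on the new vertices;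
`p v = q (Sum.inl v)`. The dart `(d,0)` is live with labels `inl (lam d)`, `inl (lam (α d))`, so `Ed α lam` maps
into `Ed A (cL φ lam)`, and `strict`, `inj` of `q` give the claims. -/
theorem conn_live [Finite D] {c : V → Bool} {φ α : Perm D} {lam : D → V} (h : BM c φ α lam)
    (hα : ∀ d, α d ≠ d) (hconn : ∀ x y, cs φ α x y) :
    ∃ p : V → ℕ, (∀ x y, p (lam x) = p (lam y) → lam x = lam y) ∧ Strict c α lam p := by
  sorry

/-- **Connected maps.**

PROOF. `live_sub`, `conn_live`: `Ed` and the labels of live darts are the same for both maps. -/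
theorem conn_strict [Finite D] {c : V → Bool} {φ α : Perm D} {lam : D → V} (h : BM c φ α lam)
    (hconn : ∀ x y, α x ≠ x → α y ≠ y → cs φ α x y) :
    ∃ p : V → ℕ, (∀ x y, α x ≠ x → α y ≠ y → p (lam x) = p (lam y) → lam x = lam y) ∧
      Strict c α lam p := by
  sorry

end H63SO
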