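import Pool.Agent.Lib.H63SO.Defs

set_option autoImplicit false

/-!
# Strict orders of planar bipartite maps: crossing lemma
-/

namespace H63SO

open Equiv Equiv.Perm H71S

variable {D V : Type}

/-- **Crossing lemma.** `d, k, y, x` are darts on one face, in this cyclic order (`k ∈ l1`,
`x ∈ l2`). There is no edge from `lam d` to `lam y` together with an edge from `lam k` to `lam x`
disjoint from it.

PROOF. Let `e` be a live dart with `lam e = lam d`, `lam e' = lam y`, `e' = α e`. Let
`β = α * swap e e'`: `β e = e`, `β e' = e'`, `β t = α t` for the other `t` (`φ` is not changed; this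
is the contraction of the edge). `G0 φ β`: by `G0_of_le` it is enough that
`|D| + 2 comps φ β ≤ cyc φ + cyc β + cyc (φ * β)`; here `cyc β = cyc α + 1` (`cyc_swap_same`, as
`e' = α e`), `φ * β = (φ * α) * swap e e'` and `e, e'` are in different cycles of `φ * α` (the labels
are constant on cycles: `lm_lam_same`, `n0`), so `cyc (φ * β) + 1 = cyc (φ * α)` (`cyc_swap_diff`),
and `comps φ β ≤ comps φ α` by `ncl_anti` and `cs_le` (`cs φ β e e'` because `e, e'` are in the same
cycle of `φ * β` by `swap_merge`). By `LM.dist` (`d`, `y` are live, `lm_live`) and `swap_merge`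
`SameCycle (φ * β) d y`; also `SameCycle φ d y` (`Run.same`). `G0.split` gives, with
`ψ = swap d y * φ`, that `¬ cs ψ β d y`. But: `ψ t = φ t` unless `φ t ∈ {d, y}`, so `ψ` runs
from `d` through `l1` and back to `d` and from `y` through `l2` and back to `y` (`Run.append`,
`Run.replace`): `cs ψ β d k`, `cs ψ β y x`. If `lam t` is neither `lam d` nor `lam y`, then
`(ψ * β) t = (φ * α) t` (`t ≠ e, e'` and `lam ((φ * α) t) = lam t`, so `(φ * α) t ≠ d, y`). Let `f` be
live, `lam f = lam k`, `lam (α f) = lam x`. By `LM.dist` there are `i, j` with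
`(φ * α)^i k = f`, `(φ * α)^j (α f) = x` (`SameCycle.exists_nat_pow_eq`), so, by induction on the
exponent, `cs ψ β k f` and `cs ψ β (α f) x`. Finally `β f = α f`, as `f ≠ e, e'`. So `cs ψ β d y`,
a contradiction. -/
theorem crossing [Finite D] {φ α : Perm D} {lam : D → V} (h : LM φ α lam) {d y : D}
    {l1 l2 : List D} (hrun : Run φ d (l1 ++ y :: l2) d) (hnd : (d :: (l1 ++ y :: l2)).Nodup)
    (hlive : α d ≠ d) {k x : D} (hk : k ∈ l1) (hx : x ∈ l2)
    (h1 : Ed α lam (lam d) (lam y)) (h2 : Ed α lam (lam k) (lam x)) (n0 : lam d ≠ lam y)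
    (n1 : lam k ≠ lam d) (n2 : lam k ≠ lam y) (n3 : lam x ≠ lam d) (n4 : lam x ≠ lam y) :
    False := by
  sorry

end H63SO
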