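import Pool.Agent.Lib.H71S.LMOps

set_option autoImplicit false

/-!
# Strict orders of planar bipartite maps: definitions

A strict order of a 2-coloured graph is an injective numbering `p` of the vertices such that there
are no edges `z v`, `u w` with `p z < p u < p v < p w` and `z`, `u` of the same colour. We prove
that every finite planar bipartite map without parallel edges has a strict order (`Main.lean`).
-/

namespace H63SO

open Equiv Equiv.Perm H71S

variable {D V : Type}

/-- there is a live dart from `x` to `y` -/
def Ed (α : Perm D) (lam : D → V) (x y : V) : Prop :=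
  ∃ d, α d ≠ d ∧ lam d = x ∧ lam (α d) = y

/-- labelled maps of genus zero without parallel edges, properly coloured by `c` -/
structure BM (c : V → Bool) (φ α : Perm D) (lam : D → V) : Prop where
  lm : LM φ α lam
  col : ∀ d, α d ≠ d → c (lam d) ≠ c (lam (α d))
  simple : ∀ d e, α d ≠ d → α e ≠ e → lam d = lam e → lam (α d) = lam (α e) → d = e

/-- **The states of the peeling.** The live part of the map is connected. Its outer face is the
cycle `d, B, A` of the face permutation `φ`: the outer walk starts at the base vertex `b`, runs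
through the darts of `A`, then through the gap dart `d` from the white vertex `lam d` to the
black vertex `lam (α d)`, then through the darts of `B`, back to `b`. All other faces are 4-gons.
The white vertices of the walk `A, d` are distinct, the black vertices of the walk `B, b` are
distinct. (White is `true`, black is `false`.) -/
structure St (c : V → Bool) (b : V) (φ α : Perm D) (lam : D → V) (A : List D) (d : D)
    (B : List D) : Prop where
  bm : BM c φ α lam
  conn : ∀ x, α x ≠ x → cs φ α d x
  run : Run φ d (B ++ A) d
  nd : (d :: (B ++ A)).Nodup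
  live : α d ≠ d
  quad : ∀ x, α x ≠ x → x ≠ d → x ∉ B ++ A → φ (φ (φ (φ x))) = x
  white : c (lam d) = true
  base : ∃ T, (A ++ [d]).map lam = b :: T
  hW : (((A ++ [d]).map lam).filter (fun v => c v)).Nodup
  hB : ((B.map lam ++ [b]).filter (fun v => !c v)).Nodup

/-- the vertices of the map, and the base -/
def Vx (b : V) (α : Perm D) (lam : D → V) (v : V) : Prop := v = b ∨ ∃ x, α x ≠ x ∧ lam x = v

/-- no forbidden pair of edges -/
def Strict (c : V → Bool) (α : Perm D) (lam : D → V) (p : V → ℕ) : Prop :=
  ∀ z u v w, p z < p u → p u < p v → p v < p w → c z = c u → Ed α lam z v → Ed α lam u w → False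

/-- `x` is not covered by an edge whose left end has the colour of `x` -/
def Alive (c : V → Bool) (α : Perm D) (lam : D → V) (p : V → ℕ) (x : V) : Prop :=
  ∀ a y, Ed α lam a y → c a = c x → p a < p x → p x < p y → False

/-- **The orders we look for.** `LL` is the walk `A, d`, `RR` is the walk `B, b` (vertices):
the base comes first, the white vertices of `LL` are alive and increasing, the black vertices of
`RR` are alive and decreasing. -/
structure Good (c : V → Bool) (b : V) (α : Perm D) (lam : D → V) (LL RR : List V)
    (p : V → ℕ) : Prop where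
  inj : ∀ x y, Vx b α lam x → Vx b α lam y → p x = p y → x = y
  first : ∀ x, Vx b α lam x → x ≠ b → p b < p x
  strict : Strict c α lam p
  aliveW : ∀ x ∈ LL, c x = true → Alive c α lam p x
  aliveB : ∀ x ∈ RR, c x = false → Alive c α lam p x
  monoW : (LL.filter (fun v => c v)).Pairwise (fun x y => p x < p y)
  monoB : (RR.filter (fun v => !c v)).Pairwise (fun x y => p y < p x)

/-- no neighbour of `lam d` other than `lam (α d)` is in `RR` -/
def Ok (α : Perm D) (lam : D → V) (d : D) (RR : List V) : Prop :=
  ∀ x, α x ≠ x → lam x = lam d → x ≠ d → lam (α x) ∉ RR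

/-- the vertex `lam d` can be placed last -/
def ClaimB (n : ℕ) : Prop :=
  ∀ (D V : Type) (_ : Finite D) (c : V → Bool) (b : V) (φ α : Perm D) (lam : D → V) (A : List D)
    (d : D) (B : List D), St c b φ α lam A d B → Nat.card {x // α x ≠ x} ≤ n → lam d ≠ b →
    Ok α lam d (B.map lam ++ [b]) →
    ∃ p : V → ℕ, Good c b α lam ((A ++ [d]).map lam) (B.map lam ++ [b]) p ∧
      ∀ x, Vx b α lam x → x ≠ lam d → p x < p (lam d)

/-- every state has a good order -/
def ClaimA (n : ℕ) : Prop :=
  ∀ (D V : Type) (_ : Finite D) (c : V → Bool) (b : V) (φ α : Perm D) (lam : D → V) (A : List D)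
    (d : D) (B : List D), St c b φ α lam A d B → Nat.card {x // α x ≠ x} ≤ n →
    ∃ p : V → ℕ, Good c b α lam ((A ++ [d]).map lam) (B.map lam ++ [b]) p

theorem BM.ne {c : V → Bool} {φ α : Perm D} {lam : D → V} (h : BM c φ α lam) {d : D}
    (hd : α d ≠ d) : lam d ≠ lam (α d) := fun hc => h.col d hd (by rw [← hc])

theorem lm_head {φ α : Perm D} {lam : D → V} (h : LM φ α lam) (d : D) :
    lam (φ d) = lam (α d) := by
  have := h.vert (α d)
  rwa [Equiv.Perm.mul_apply, h.inv] at this

theorem lm_lam_same [Finite D] {φ α : Perm D} {lam : D → V} (h : LM φ α lam) {a b : D}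
    (hab : SameCycle (φ * α) a b) : lam a = lam b := by
  let s : Setoid D := (⊥ : Setoid V).comap lam
  refine sc_le (s := s) (fun a => ?_) hab
  change lam a = lam ((φ * α) a)
  rw [h.vert]

/-- the darts on the cycle of a live dart are live -/
theorem lm_live [Finite D] {φ α : Perm D} {lam : D → V} (h : LM φ α lam) {a b : D}
    (hab : SameCycle φ a b) (ha : α a ≠ a) : α b ≠ b := by
  intro hb
  have h1 : φ b = b := h.dead b hb
  obtain ⟨k, hk⟩ := hab.symm
  rw [Equiv.Perm.zpow_apply_eq_self_of_apply_eq_self h1] at hk
  rw [← hk] at ha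
  exact ha hb

theorem St.live_mem [Finite D] {c : V → Bool} {b : V} {φ α : Perm D} {lam : D → V} {A B : List D}
    {d : D} (h : St c b φ α lam A d B) {x : D} (hx : x ∈ B ++ A) : α x ≠ x :=
  lm_live h.bm.lm (h.run.same x (Or.inl hx)) h.live

theorem Ed.symm {φ α : Perm D} {lam : D → V} (h : LM φ α lam) {x y : V} (hxy : Ed α lam x y) :
    Ed α lam y x := by
  obtain ⟨d, hd, rfl, rfl⟩ := hxy
  refine ⟨α d, ?_, rfl, by rw [h.inv]⟩
  rw [h.inv]
  exact hd.symm

end H63SO
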