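import Pool.Agent.Lib.H63SO.Defs

set_option autoImplicit false

/-!
# Strict orders of planar bipartite maps: deletion of the gap edge, inner case, part 1
-/

namespace H63SO

open Equiv Equiv.Perm H71S

variable {D V : Type}

/-- **Deletion of the gap edge, permutations.**

PROOF. Write `d' = α d`, `O = d :: (B ++ A)` (a closed `φ`-cycle, `Run.closed_same`). `d' ∉ O` (`hd`,
`h.live`), so the cycle of `d'` is disjoint from `O` and `¬ SameCycle φ d d'`. By `h.quad`,
`φ^4 d' = d'`; put `e1 = φ d'`, `e2 = φ e1`, `e3 = φ e2`, `φ e3 = d'`. Labels (`lm_head`): `lam e1 = lam d`,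
`lam e2 = lam (α e1)`, `lam e3 = lam (α e2)`, `lam d' = lam (α e3)`; all `e_i` are live (`lm_live`); the
colours of `d', e1, e2, e3` alternate, so `d' ≠ e1`, `e1 ≠ e2`, `e2 ≠ e3`, `e3 ≠ d'`. `e2 ≠ d'`: otherwise
`lam (α e1) = lam d' = lam (α d)` and `lam e1 = lam d`, so `e1 = d ∈ O` by `simple`. `e1 ≠ e3`: otherwise
`e2 = φ e1 = φ e3 = d'`. Also `φ d ≠ d`, `φ d' ≠ d'` (colours). Now apply `PM.del` (with `r = d`,
`r' = d'`; `PM` has `inv`, `g0`, `head`). `LM φ2 α2 lam`: `vert` from `head`, `dead` from the formulas for `φ2`,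
`dist` from the last output. `Killed` is in the output. The run: `φ2 = φ` on `B ++ A` except at the
element before `d`, which goes to `φ d' = e1` (`Run.replace`); `φ2 e1 = e2`, `φ2 e2 = e3`,
`φ2 e3 = φ d`. If `B ++ A = []` then `φ d = d`, impossible. The 4-gons: if `x` is live for
`α2` and not in the new list then `x ≠ d, d'`, the `φ`-cycle of `x` is disjoint from `O` and from
`{d', e1, e2, e3}`, so `φ2 = φ` on it. Connectedness: `cs φ α d x` gives `cs φ α e1 x`
(`d, α d = d', φ d' = e1`) and the output of `PM.del` on `cs`. -/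
theorem inner1 [Finite D] {c : V → Bool} {b : V} {φ α : Perm D} {lam : D → V} {A B : List D}
    {d : D} (h : St c b φ α lam A d B) (hd : α d ∉ B ++ A) :
    ∃ (φ2 α2 : Perm D) (e1 e2 e3 : D), Killed φ α φ2 α2 d (α d) ∧ LM φ2 α2 lam ∧
      e1 ≠ d ∧ e1 ≠ α d ∧ e2 ≠ d ∧ e2 ≠ α d ∧ e3 ≠ d ∧ e3 ≠ α d ∧
      α e1 ≠ e1 ∧ α e2 ≠ e2 ∧ α e3 ≠ e3 ∧
      lam e1 = lam d ∧ lam e2 = lam (α e1) ∧ lam e3 = lam (α e2) ∧ lam (α e3) = lam (α d) ∧
      Run φ2 e1 (e2 :: e3 :: (B ++ A)) e1 ∧ (e1 :: e2 :: e3 :: (B ++ A)).Nodup ∧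
      (∀ x, α2 x ≠ x → cs φ2 α2 e1 x) ∧
      (∀ x, α2 x ≠ x → x ≠ e1 → x ∉ e2 :: e3 :: (B ++ A) → φ2 (φ2 (φ2 (φ2 x))) = x) := by
  classical
  have lm := h.bm.lm
  have hrun := h.run
  have hnd := h.nd
  have hlive := h.live
  have hdd : α (α d) = d := lm.inv d
  -- the cycle of `α d`
  have hoff : ∀ x, SameCycle φ (α d) x → x ≠ d ∧ x ∉ B ++ A := by
    intro x hx
    constructor
    · intro hc
      rcases hrun.closed_same hx (Or.inl hc) with h1 | h1
      · exact hlive h1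
      · exact hd h1
    · intro hc
      rcases hrun.closed_same hx (Or.inr hc) with h1 | h1
      · exact hlive h1
      · exact hd h1
  have hns : ¬ SameCycle φ d (α d) := fun hc => (hoff d hc.symm).1 rfl
  have hlive' : α (α d) ≠ α d := by rw [hdd]; exact hlive.symm
  have hq : φ (φ (φ (φ (α d)))) = α d := h.quad (α d) hlive' hlive hd
  obtain ⟨e1, he1⟩ : ∃ e1, φ (α d) = e1 := ⟨_, rfl⟩
  obtain ⟨e2, he2⟩ : ∃ e2, φ e1 = e2 := ⟨_, rfl⟩
  obtain ⟨e3, he3⟩ : ∃ e3, φ e2 = e3 := ⟨_, rfl⟩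
  rw [he1, he2, he3] at hq
  have s1 : SameCycle φ (α d) e1 := ⟨1, by rw [zpow_one]; exact he1⟩
  have s2 : SameCycle φ (α d) e2 := s1.trans ⟨1, by rw [zpow_one]; exact he2⟩
  have s3 : SameCycle φ (α d) e3 := s2.trans ⟨1, by rw [zpow_one]; exact he3⟩
  have l1 : α e1 ≠ e1 := lm_live lm s1 hlive'
  have l2 : α e2 ≠ e2 := lm_live lm s2 hlive'
  have l3 : α e3 ≠ e3 := lm_live lm s3 hlive'
  have b1 : lam e1 = lam d := by rw [← he1, lm_head lm, hdd]
  have b2 : lam e2 = lam (α e1) := by rw [← he2, lm_head lm]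
  have b3 : lam e3 = lam (α e2) := by rw [← he3, lm_head lm]
  have b4 : lam (α e3) = lam (α d) := by rw [← lm_head lm, hq]
  have c0 : c (lam d) ≠ c (lam (α d)) := h.bm.col d hlive
  have c1 : c (lam e1) ≠ c (lam e2) := by rw [b2]; exact h.bm.col e1 l1
  have c2 : c (lam e2) ≠ c (lam e3) := by rw [b3]; exact h.bm.col e2 l2
  have c3 : c (lam e3) ≠ c (lam (α d)) := by rw [← b4]; exact h.bm.col e3 l3
  have n1 : e1 ≠ d := (hoff e1 s1).1
  have n2 : e2 ≠ d := (hoff e2 s2).1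
  have n3 : e3 ≠ d := (hoff e3 s3).1
  have m1 : e1 ≠ α d := by
    intro hc
    rw [← b1, hc] at c0
    exact c0 rfl
  have m2 : e2 ≠ α d := by
    intro hc
    apply n1
    refine (h.bm.simple d e1 hlive l1 b1.symm ?_).symm
    rw [← b2, hc]
  have m3 : e3 ≠ α d := by
    intro hc
    rw [hc] at c3
    exact c3 rfl
  have k12 : e1 ≠ e2 := by
    intro hc
    rw [hc] at c1
    exact c1 rfl
  have k23 : e2 ≠ e3 := by
    intro hc
    rw [hc] at c2
    exact c2 rfl
  have k13 : e1 ≠ e3 := by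
    intro hc
    rw [hc, hq] at he2
    exact m2 he2.symm
  have f0 : φ d ≠ d := by
    intro hc
    have := lm_head lm d
    rw [hc] at this
    exact c0 (by rw [this])
  have f0' : φ (α d) ≠ α d := by rw [he1]; exact m1
  have hpm : PM φ α lam := ⟨lm.inv, lm.g0, lm_head lm⟩
  obtain ⟨φ2, α2, pm2, f1, f2, a1, a2, a3, v1, v2, v3, cc, sc⟩ := hpm.del rfl hns f0 f0'
  -- the darts killed are dead
  have live2 : ∀ x, α2 x ≠ x → x ≠ d ∧ x ≠ α d ∧ α x ≠ x := by
    intro x hx
    have x1 : x ≠ d := fun hc => hx (by rw [hc, a1])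
    have x2 : x ≠ α d := fun hc => hx (by rw [hc, a2])
    refine ⟨x1, x2, ?_⟩
    rw [← a3 x x1 x2]
    exact hx
  refine ⟨φ2, α2, e1, e2, e3, ⟨f1, f2, a1, a2, a3⟩, ⟨pm2.inv, pm2.g0, ?_, ?_, ?_⟩, n1, m1, n2, m2,
    n3, m3, l1, l2, l3, b1, b2, b3, b4, ?_, ?_, ?_, ?_⟩
  · intro x
    rw [Equiv.Perm.mul_apply, pm2.head, pm2.inv]
  · intro x hx
    by_cases x1 : x = d
    · rw [x1, f1]
    · by_cases x2 : x = α d
      · rw [x2, f2]
      · rw [a3 x x1 x2] at hx
        have h3 := lm.dead x hx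
        rw [v3 x x1 x2 (by rw [h3]; exact x1) (by rw [h3]; exact x2), h3]
  · intro x y hx hy hxy
    obtain ⟨x1, x2, x3⟩ := live2 x hx
    obtain ⟨y1, y2, y3⟩ := live2 y hy
    exact sc x y x1 x2 y1 y2 (lm.dist x y x3 y3 hxy)
  · -- the run
    have w1 : φ2 e1 = e2 := by
      rw [v3 e1 n1 m1 (by rw [he2]; exact n2) (by rw [he2]; exact m2), he2]
    have w2 : φ2 e2 = e3 := by
      rw [v3 e2 n2 m2 (by rw [he3]; exact n3) (by rw [he3]; exact m3), he3]
    have w3 : φ2 e3 = φ d := v2 e3 n3 m3 hq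
    have key : Run φ2 e3 (B ++ A) e1 := by
      have hmem : ∀ x, x ∈ B ++ A → SameCycle φ d x := fun x hx => hrun.same x (Or.inl hx)
      cases hBA : B ++ A with
      | nil =>
        rw [hBA] at hrun
        exact absurd hrun f0
      | cons m M =>
        rw [hBA] at hrun hnd hd hmem
        obtain ⟨r1, r2⟩ := hrun
        rw [List.nodup_cons, List.mem_cons, not_or] at hnd
        obtain ⟨⟨t1, t2⟩, -⟩ := hnd
        have hx1 : ∀ x, (x = m ∨ x ∈ M) → x ≠ d := by
          rintro x (rfl | hx) hc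
          · exact t1 hc.symm
          · exact t2 (hc ▸ hx)
        have hx2 : ∀ x, (x = m ∨ x ∈ M) → x ≠ α d := by
          rintro x hx hc
          apply hd
          rw [← hc]
          exact List.mem_cons.2 hx
        refine ⟨w3.trans r1, r2.replace t2 ?_ ?_⟩
        · intro x hx hxd
          refine v3 x (hx1 x hx) (hx2 x hx) hxd ?_
          intro hc
          exact hns ((hmem x (List.mem_cons.2 hx)).trans ⟨1, by rw [zpow_one]; exact hc⟩)
        · intro x hx hxd
          exact (v1 x (hx1 x hx) (hx2 x hx) hxd).trans he1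
    exact ⟨w1, w2, key⟩
  · rw [List.nodup_cons] at hnd
    rw [List.nodup_cons, List.nodup_cons, List.nodup_cons, List.mem_cons, List.mem_cons,
      List.mem_cons]
    refine ⟨?_, ?_, (hoff e3 s3).2, hnd.2⟩
    · rintro (hc | hc | hc)
      · exact k12 hc
      · exact k13 hc
      · exact (hoff e1 s1).2 hc
    · rintro (hc | hc)
      · exact k23 hc
      · exact (hoff e2 s2).2 hc
  · intro x hx
    obtain ⟨x1, x2, x3⟩ := live2 x hx
    refine (cc e1 x n1 m1 x1 x2).1 ?_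
    have q1 : cs φ α d (α d) := cs_right φ α d
    have q2 : cs φ α (α d) e1 := by
      have := cs_left φ α (α d)
      rwa [he1] at this
    exact (cs φ α).trans ((cs φ α).symm ((cs φ α).trans q1 q2)) (h.conn x x3)
  · intro x hx y1 y2
    obtain ⟨x1, x2, x3⟩ := live2 x hx
    rw [List.mem_cons, List.mem_cons, not_or, not_or] at y2
    obtain ⟨y2, y3, y4⟩ := y2
    have hq2 := h.quad x x3 x1 y4
    have hr' : Run φ (α d) [e1, e2, e3] (α d) := ⟨he1, he2, he3, hq⟩
    have hout : ∀ z, SameCycle φ x z → z ≠ d ∧ z ≠ α d := by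
      intro z hz
      constructor
      · intro hc
        rcases hrun.closed_same hz (Or.inl hc) with h1 | h1
        · exact x1 h1
        · exact y4 h1
      · intro hc
        rcases hr'.closed_same hz (Or.inl hc) with h1 | h1
        · exact x2 h1
        · simp only [List.mem_cons, List.not_mem_nil, or_false] at h1
          rcases h1 with h1 | h1 | h1
          · exact y1 h1
          · exact y2 h1
          · exact y3 h1
    have hstep : ∀ z, SameCycle φ x z → φ2 z = φ z ∧ SameCycle φ x (φ z) := by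
      intro z hz
      have hz' : SameCycle φ x (φ z) := hz.trans ⟨1, by rw [zpow_one]⟩
      exact ⟨v3 z (hout z hz).1 (hout z hz).2 (hout _ hz').1 (hout _ hz').2, hz'⟩
    obtain ⟨u1, v1'⟩ := hstep x (SameCycle.refl _ _)
    obtain ⟨u2, v2'⟩ := hstep _ v1'
    obtain ⟨u3, v3'⟩ := hstep _ v2'
    obtain ⟨u4, -⟩ := hstep _ v3'
    rw [u1, u2, u3, u4, hq2]

end H63SO
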