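import Pool.Agent.Lib.H63SO.Inner1

set_option autoImplicit false

/-!
# Strict orders of planar bipartite maps: deletion of the gap edge, inner case, part 2
-/

namespace H63SO

open Equiv Equiv.Perm H71S

variable {D V : Type}

/-- **Deletion of the gap edge, states.**

PROOF. Take `φ2, α2, e1, e2, e3` from `inner1`. For `x ≠ d, α d` we have `α2 x = α x` (`Killed.a3`), and a
dart that is live for `α2` is live for `α` and different from `d, α d`. `bm`: `LM` is given; `col` and
`simple` are inherited. `run`, `nd`, `conn`, `quad` are given (`(e2 :: e3 :: B) ++ A`). `live`, `white`,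
`base`, `hW`: `lam e1 = lam d`, `α2 e1 = α e1 ≠ e1`. `hB`: `(e2 :: e3 :: B).map lam ++ [b]` is
`z :: w :: RR` with `z = lam e2` black, `w = lam e3` white (`col`), so the filtered list is
`z :: (RR filtered)`; `z ∉ RR` by `hok` for the dart `e1` (live, `lam e1 = lam d`, `e1 ≠ d`,
`z = lam (α e1)`). `Ok α2 lam e1 (z :: w :: RR)`: let `x` be live for `α2`, `lam x = lam e1`, `x ≠ e1`; then
`lam (α2 x) = lam (α x)` is not in `RR` by `hok`, not `z` by `simple` (`x ≠ e1`), not `w` by the colours. -/
theorem inner2 [Finite D] {c : V → Bool} {b : V} {φ α : Perm D} {lam : D → V} {A B : List D}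
    {d : D} (h : St c b φ α lam A d B) (hd : α d ∉ B ++ A)
    (hok : Ok α lam d (B.map lam ++ [b])) :
    ∃ (φ2 α2 : Perm D) (e1 e2 e3 : D), Killed φ α φ2 α2 d (α d) ∧
      St c b φ2 α2 lam A e1 (e2 :: e3 :: B) ∧
      Ok α2 lam e1 ((e2 :: e3 :: B).map lam ++ [b]) ∧ lam e1 = lam d ∧
      α2 e3 ≠ e3 ∧ lam (α2 e3) = lam (α d) := by
  sorry

end H63SO
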