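import Pool.Agent.Lib.H63SO.Conn
import Pool.Agent.Lib.H63SO.Cmp

set_option autoImplicit false

/-!
# Every finite planar bipartite map has a strict order
-/

namespace H63SO

open Equiv Equiv.Perm H71S

variable {D V : Type}

/-- **All maps.**

PROOF. Induction on the number `n` of live darts. No live dart: `p = 0`. Otherwise let `x0` be live,
`K d := cs φ α x0 d`. `keep` for `K` and `keep_conn`, `conn_strict` give `p1`; `keep` for the complement of
`K` (fewer live darts: `x0` is dead) gives `p2` by induction. Labels of live darts in `K` and
outside of `K` are different (`LM.dist`, `cs_of_sameCycle_mul`). Let `N` be larger than all values of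
`p1` on the labels of `K`; `p v = p1 v` if `v = lam d` for a live `d` with `K d`, `p v = N + p2 v` if not.
Strictness for `z < u < v < w` with edges `z v`, `u w`: both edges in `K`, or both outside of
`K`: `p1`, `p2`. `z v` in `K`, `u w` outside: `p u ≥ N > p v`. `z v` outside, `u w` in `K`:
`p z ≥ N > p u`. (The `Ed` of the two submaps are the edges of `Ed α lam` in `K`, outside of `K`.) -/
theorem all_strict [Finite D] {c : V → Bool} (n : ℕ) : ∀ (φ α : Perm D) (lam : D → V),
    BM c φ α lam → Nat.card {d // α d ≠ d} ≤ n →
    ∃ p : V → ℕ, (∀ x y, α x ≠ x → α y ≠ y → p (lam x) = p (lam y) → lam x = lam y) ∧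
      Strict c α lam p := by
  sorry

/-- **Every finite planar bipartite map without parallel edges has a strict order.**

PROOF. `all_strict` gives `p0`. Let `N` be larger than all values `p0 (lam d)` and `f : V → ℕ` be injective
(`Finite V`); `p v = p0 v` if `v` is the label of a live dart, `p v = N + 1 + f v` if not. Ends of edges are
labels of live darts. -/
theorem strict_order [Finite D] [Finite V] {φ α : Perm D} {lam : D → V} (h : LM φ α lam)
    (c : V → Bool) (hc : ∀ d, α d ≠ d → c (lam d) ≠ c (lam (α d)))
    (hs : ∀ d e, α d ≠ d → α e ≠ e → lam d = lam e → lam (α d) = lam (α e) → d = e) :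
    ∃ p : V → ℕ, Function.Injective p ∧ ∀ z u v w, p z < p u → p u < p v → p v < p w →
      c z = c u → (∃ d, α d ≠ d ∧ lam d = z ∧ lam (α d) = v) →
      (∃ d, α d ≠ d ∧ lam d = u ∧ lam (α d) = w) → False := by
  sorry

end H63SO
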