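import Pool.Agent.Lib.H63SO.Defs

set_option autoImplicit false

/-!
# Strict orders of planar bipartite maps: mirror image, part 1
-/

namespace H63SO

open Equiv Equiv.Perm H71S

variable {D V : Type}

/-- the face permutation of the mirror image -/
def mir (φ α : Perm D) : Perm D := α * φ⁻¹ * α

/-- PROOF. `mir φ α * α = α * φ⁻¹ = (φ * α)⁻¹` (`α * α = 1`, so `α⁻¹ = α`). `inv` is `h.inv`. `vert`: apply
`h.vert` to `(φ * α)⁻¹ d`. `dead`: if `α d = d` then `φ d = d`, so `φ⁻¹ d = d`. `dist`: `SameCycle` of the
inverse (`Equiv.Perm.sameCycle_inv`). `g0`: by `G0_of_le` and `h.g0`: `cyc (mir φ α) = cyc φ` and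
`cyc (mir φ α * α) = cyc (φ * α)` (two `ncl_anti`; `SameCycle (mir φ α) a b ↔ SameCycle φ (α a) (α b)`, use
`Nat.card_congr` or the surjection `Quotient.map`), `comps (mir φ α) α ≤ comps φ α` by `ncl_anti`,
`cs_le`: `cs (mir φ α) α a (φ a)`, because `mir φ α (α (φ a)) = α a`. -/
theorem mir_lm [Finite D] {φ α : Perm D} {lam : D → V} (h : LM φ α lam) :
    LM (mir φ α) α lam := by
  sorry

/-- PROOF. `mir_lm`; the other two fields do not mention the face permutation. -/
theorem mir_bm [Finite D] {c : V → Bool} {φ α : Perm D} {lam : D → V} (h : BM c φ α lam) :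
    BM (fun v => !c v) (mir φ α) α lam := by
  sorry

/-- PROOF. Induction on `l` with `Run.append`: `mir φ α (α b) = α a` if `φ a = b`. -/
theorem mir_run {φ α : Perm D} (hα : ∀ d, α (α d) = d) {a b : D} {l : List D}
    (h : Run φ a l b) : Run (mir φ α) (α b) ((l.map α).reverse) (α a) := by
  sorry

/-- PROOF. Induction on `l`, with `lam (φ a) = lam (α a)` (`lm_head`). -/
theorem run_lab {φ α : Perm D} {lam : D → V} (h : LM φ α lam) {a b : D} {l : List D}
    (hr : Run φ a l b) : (a :: l).map (fun x => lam (α x)) = l.map lam ++ [lam b] := by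
  sorry

/-- PROOF. If `A = []` then `lam d = b` (`hb`), use `run_lab` for the run from `d` through `B` to `d`. If
`A = s :: A'` then `lam s = b`; `Run.append` splits the run at `s`; `run_lab` for the run from `d`
through `B` to `s`. -/
theorem mir_L {φ α : Perm D} {lam : D → V} (h : LM φ α lam) {A B : List D} {d : D} {b : V}
    (hr : Run φ d (B ++ A) d) (hb : ∃ T, (A ++ [d]).map lam = b :: T) :
    ((B.map α).reverse ++ [α d]).map lam = (B.map lam ++ [b]).reverse := by
  sorry

/-- PROOF. If `A = []` then `lam d = b`. If `A = s :: A'` then `lam s = b`; `run_lab` for the run from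
`s` through `A'` to `d`. -/
theorem mir_R {φ α : Perm D} {lam : D → V} (h : LM φ α lam) {A B : List D} {d : D} {b : V}
    (hr : Run φ d (B ++ A) d) (hb : ∃ T, (A ++ [d]).map lam = b :: T) :
    ((A.map α).reverse).map lam ++ [b] = ((A ++ [d]).map lam).reverse := by
  sorry

end H63SO
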