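import Pool.Agent.Lib.H63SO.Mir1

set_option autoImplicit false

/-!
# Strict orders of planar bipartite maps: mirror image, part 2
-/

namespace H63SO

open Equiv Equiv.Perm H71S

variable {D V : Type}

/-- PROOF. `bm`: `mir_bm`. `conn`: `cs (mir φ α) α (α d) x` from `h.conn x` by `cs_le` (`mir φ α (α (φ a)) = α a`,
see `mir_lm`). `run`: `mir_run` for `h.run`, `(A.map α).reverse ++ (B.map α).reverse` is the reverse of
`(B ++ A).map α`. `nd`: `α` is injective. `live`: `α (α d) = d ≠ α d`. `quad`: let `x` be live and not
in the new outer face; then `α x` is live and not in `d :: (B ++ A)`, so the 4-cycle of `φ` through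
`α x` gives the one of `mir φ α` through `x` (`mir φ α y = α (φ⁻¹ (α y))`; note that
`φ⁻¹` of a dart outside of the outer cycle is outside: `Run.closed`). `white`: `c (lam (α d)) = false` by
`bm.col`. `base`: by `mir_L` the list is `(B.map lam ++ [b]).reverse`, which starts with `b`. `hW`, `hB`: by
`mir_L`, `mir_R` and `List.filter_reverse`, `List.nodup_reverse`, from `h.hB`, `h.hW` (`!!c = c`). -/
theorem mir_st [Finite D] {c : V → Bool} {b : V} {φ α : Perm D} {lam : D → V} {A B : List D}
    {d : D} (h : St c b φ α lam A d B) :
    St (fun v => !c v) b (mir φ α) α lam ((B.map α).reverse) (α d) ((A.map α).reverse) := by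
  sorry

/-- PROOF. `Strict` and `Alive` are the same for `c` and `!c`; exchange `W` and `B`;
`List.filter_reverse`, `List.pairwise_reverse`, `List.mem_reverse`. -/
theorem mir_good {c : V → Bool} {b : V} {α : Perm D} {lam : D → V} {LL RR : List V} {p : V → ℕ}
    (h : Good (fun v => !c v) b α lam RR.reverse LL.reverse p) : Good c b α lam LL RR p := by
  sorry

end H63SO
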