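import Pool.Agent.Lib.H63SO.Defs

set_option autoImplicit false

/-!
# Strict orders of planar bipartite maps: the orders
-/

namespace H63SO

open Equiv Equiv.Perm H71S

variable {D V : Type}

/-- **Adding the edge from `g` (last) to `r` (alive).** `RR = r :: T` is the walk `B, b`, and the smaller
map has the walk `z :: w :: RR`.

PROOF. All `Ed α` are `Ed α2` or `(g, r)` or `(r, g)`; `Vx b α lam x ↔ Vx b α2 lam x` is only needed from
left to right. `last`: every vertex `≠ g` is before `g`. `strict`: for `z' < u < v < w'`, edges `z' v`,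
`u w'`: both in `α2`: induction. `(z', v) = (g, r)`: `p g < p u` is impossible (`last`). `(z', v) = (r, g)`:
`p g < p w'` impossible. `(u, w') = (g, r)`: `p g < p v` impossible. `(u, w') = (r, g)` and `z' v` in
`α2`: `c z' = c r`, `p z' < p r < p v` contradicts that `r` is alive in the smaller map. `aliveW`: a
new covering edge `a y` of a white `x` has `c a = c x` white, so `(a, y) = (g, r)`, and `p g < p x` is
impossible. `aliveB`: `x ∈ RR` black, covering edge `(r, g)`, `p r < p x`: `x ≠ r`, so `x ∈ T` and `monoB` (for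
the sublist `r :: T`, `r` is black) gives `p x < p r`. `monoB`: sublist. -/
theorem ord_inner {c : V → Bool} {b : V} {α α2 : Perm D} {lam : D → V} {LL T : List V}
    {g r z w : V} {p : V → ℕ} (hg : c g = true) (hr : c r = false)
    (hE : ∀ x y, Ed α lam x y → Ed α2 lam x y ∨ (x = g ∧ y = r) ∨ (x = r ∧ y = g))
    (hV : ∀ x, Vx b α lam x → Vx b α2 lam x)
    (hp : Good c b α2 lam LL (z :: w :: r :: T) p)
    (hl : ∀ x, Vx b α2 lam x → x ≠ g → p x < p g) :
    Good c b α lam LL (r :: T) p ∧ ∀ x, Vx b α lam x → x ≠ g → p x < p g := by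
  sorry

/-- **Adding a new last vertex `g` with one neighbour `r` (alive).**

PROOF. The labels of live darts and `b` form a finite set; let `N` be larger than all `p x` for
`Vx b α2 lam x`, and `p' g = N`, `p' x = p x` for `x ≠ g`. `g` is not a vertex of the smaller map, and
`g ≠ b`. Everything as in `ord_inner`; `inj`: `p x < N`. `aliveW`: `g` itself is not covered since it is
last; `x ∈ LL`, `x ≠ g` is in `LL2`. `monoW`: `hf`, the elements of `LL2.filter` are vertices of the
smaller map (`hL2`), so `p' x = p x < p' g`. -/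
theorem ord_pend [Finite D] {c : V → Bool} {b : V} {α α2 : Perm D} {lam : D → V}
    {LL LL2 T : List V} {g r : V} {p : V → ℕ} (hg : c g = true) (hr : c r = false)
    (hE : ∀ x y, Ed α lam x y → Ed α2 lam x y ∨ (x = g ∧ y = r) ∨ (x = r ∧ y = g))
    (hV : ∀ x, Vx b α lam x → Vx b α2 lam x ∨ x = g) (hgb : ¬ Vx b α2 lam g)
    (hrV : Vx b α2 lam r) (hL2 : ∀ x ∈ LL2, Vx b α2 lam x) (hRV : ∀ x ∈ r :: T, Vx b α2 lam x)
    (hf : LL.filter (fun v => c v) = LL2.filter (fun v => c v) ++ [g])
    (hp : Good c b α2 lam LL2 (r :: T) p) :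
    ∃ p' : V → ℕ, Good c b α lam LL (r :: T) p' ∧ ∀ x, Vx b α lam x → x ≠ g → p' x < p' g := by
  sorry

/-- **The last edge.** `b` is black, the only live darts are `d` and `α d`.

PROOF. `p b = 0`, `p x = 1` for `x ≠ b`. The vertices are `b` and `lam d` (`hall`). No three different
values, so `Strict` and `Alive` are trivial; `monoW`: the filtered list is `[lam d]`. -/
theorem ord_base {c : V → Bool} {b : V} {φ α : Perm D} {lam : D → V} {d : D}
    (h : BM c φ α lam) (hd : α d ≠ d) (hw : c (lam d) = true) (hb : lam (α d) = b)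
    (hall : ∀ x, α x ≠ x → x = d ∨ x = α d) :
    ∃ p : V → ℕ, Good c b α lam (([α d] ++ [d]).map lam) ([].map lam ++ [b]) p ∧
      ∀ x, Vx b α lam x → x ≠ lam d → p x < p (lam d) := by
  sorry

end H63SO
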