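import Pool.Agent.Lib.H63SO.Pend
import Pool.Agent.Lib.H63SO.Cls

set_option autoImplicit false

/-!
# Strict orders of planar bipartite maps: deletion of a pendant edge, states
-/

namespace H63SO

open Equiv Equiv.Perm H71S

variable {D V : Type}

/-- PROOF. `φ (α d) = d` (`last_A`), `lam (α d) = b` (`base`), black. The walk `B, b` starts at
`lam (α d) = b` (`head_RR`) and ends at `b`, its black vertices are distinct, so `B = []`. So
`φ d = α d`, `{d, α d}` is closed under `φ` and `α`, and all live darts are in it (`conn`, `cs_le` with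
the setoid `x ∈ {d, α d} ↔ y ∈ {d, α d}`). -/
theorem pstep0 [Finite D] {c : V → Bool} {b : V} {φ α : Perm D} {lam : D → V} {B : List D}
    {d : D} (h : St c b φ α lam [α d] d B) :
    B = [] ∧ lam (α d) = b ∧ ∀ x, α x ≠ x → x = d ∨ x = α d := by
  sorry

/-- PROOF. `φ a = α d`, `φ (α d) = d` (`Run.append`). Take `φ2, α2` from `pend`. A live dart for `α2` is
live for `α`, `≠ d, α d`, and `α2 = α` there. `bm`: inherited. `run`: `φ2 = φ` on `B ++ A1` and `φ2 a = φ d`:
from `Run φ d (B ++ (A1 ++ [a, α d])) d` get `Run φ2 a (B ++ A1) a` (`B ++ A1 = []`: `φ d = a`, so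
`φ2 a = a`). `nd`: sublist up to the place of `a`. `live`: `α a ≠ a` (`live_mem`), `a ≠ d, α d` (`nd`).
`quad`: `x` is outside of the old outer cycle, and so is its `φ`-cycle, where `φ2 = φ`. `white`:
`lam (α a) = lam (φ a) = lam (α d)` is black, so `lam a` is white (`col`). `base`, `hW`: `A1 ++ [a]` is a
prefix of `A1 ++ [a, α d, d]`. `hB`: same. `conn`: `pend`. Last claim: a live dart `x` for `α2` with
`lam x = lam d` is in the `(φ * α)`-cycle of `d` (`LM.dist`), which is `{d}`. -/
theorem pstep1 [Finite D] {c : V → Bool} {b : V} {φ α : Perm D} {lam : D → V} {A1 B : List D}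
    {a d : D} (h : St c b φ α lam (A1 ++ [a, α d]) d B) :
    ∃ φ2 α2 : Perm D, Killed φ α φ2 α2 d (α d) ∧ St c b φ2 α2 lam A1 a B ∧
      ∀ x, α2 x ≠ x → lam x ≠ lam d := by
  sorry

end H63SO
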