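import Pool.Agent.Lib.H63SO.Alt
import Pool.Agent.Lib.H63SO.Mir2
import Pool.Agent.Lib.H63SO.Inner2
import Pool.Agent.Lib.H63SO.PStep
import Pool.Agent.Lib.H63SO.Ord
import Pool.Agent.Lib.H71S.Contr

set_option autoImplicit false

/-!
# Strict orders of planar bipartite maps: the peeling
-/

namespace H63SO

open Equiv Equiv.Perm H71S

variable {D V : Type}

/-- PROOF. Let a state be given, `g = lam d ≠ b`, `Ok`, at most `n + 1` live darts. `head_RR`:
`RR = r :: T`, `r = lam (α d)`, black. If `α d ∉ B ++ A`: `inner2`; the new state has fewer live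
darts (`H71S.live_lt`), `ClaimB n` gives `p`, and `ord_inner` (with `z = lam e2`, `w = lam e3`; `hE`: a live
dart other than `d, α d` is live for `α2` with the same `α`; `hV`: `g = lam e1` and `r = lam (α2 e3)`
are still vertices). If `α d ∈ B ++ A`: `A = A0 ++ [α d]` by `pend_cls`. If `A0 = []`: `pstep0`,
`ord_base`. If `A0 = A1 ++ [a]`: `pstep1`, `ClaimA n` for the new state, `ord_pend` with
`LL2 = (A1 ++ [a]).map lam` (`lam (α d) = r` is black, so it disappears in the filter; the labels of
darts of `A1 ++ [a]`, `B` are vertices because these darts are live for `α2`; `r` is the head of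
`B.map lam ++ [b]`; `g` is not a vertex of the smaller map by the last claim of `pstep1` and
`g ≠ b`). -/
theorem claimB_succ {n : ℕ} (hA : ClaimA n) (hB : ClaimB n) : ClaimB (n + 1) := by
  sorry

/-- PROOF. `alt`. In the first case `ClaimB n` gives the order. In the second case apply
`ClaimB n` to the mirror image (`mir_st`, `mir_L`, `mir_R`) and use `mir_good`. -/
theorem claimA_of {n : ℕ} (hB : ClaimB n) : ClaimA n := by
  sorry

/-- PROOF. Induction; `ClaimB 0` holds since `d` is live in a state. -/
theorem claim_all (n : ℕ) : ClaimA n ∧ ClaimB n := by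
  sorry

/-- every state has a good order -/
theorem good_exists [Finite D] {c : V → Bool} {b : V} {φ α : Perm D} {lam : D → V}
    {A B : List D} {d : D} (h : St c b φ α lam A d B) :
    ∃ p : V → ℕ, Good c b α lam ((A ++ [d]).map lam) (B.map lam ++ [b]) p :=
  (claim_all _).1 D V inferInstance c b φ α lam A d B h le_rfl

end H63SO
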