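import Pool.Agent.Lib.H63SO.Defs

set_option autoImplicit false

/-!
# Strict orders of planar bipartite maps: deletion of a pendant edge
-/

namespace H63SO

open Equiv Equiv.Perm H71S

variable {D V : Type}

/-- **Deletion of a pendant edge, permutations.** `φ (α d) = d` says that `d` is the only live dart
at `lam d`.

PROOF. Like `H71S.LM.del`. Write `r = d`, `r' = α d`. `G0.del'` gives `G0 φ1 α2`, `φ1 = φ * swap r r'`,
`α2 = α * swap r r'`, `φ1 * α2 = φ * α`. `φ1 r = φ r' = r`, `φ1 r' = φ r`. Put `φ2 = skip φ1 r'`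
(`G0.skip`, `α2 r' = r'`; `skip_eq`, `skip_ne`): `φ2 r = r`, `φ2 r' = r'`, `φ2 x = φ x` if `x ≠ r, r'` and
`φ x ≠ r'`, `φ2 x = φ r` if `x ≠ r` and `φ x = r'` (if `x = r'` then `r = φ r' = r'`, impossible).
`LM`: as in `LM.del` (`skip_lab`, `skip_sameCycle` for `φ2 * α2 = skip (φ * α) r'`; a live dart for `α2`
is `≠ r, r'`; dead: `φ2 x = x`). The last claim: if `φ r = r'` then `{r, r'}` is closed under `φ` and
`α`; use `cs_le` with the setoid `cs φ2 α2 x y ∨ (x ∈ {r, r'} ∧ y ∈ {r, r'})` (or its generated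
one). If `φ r ≠ r'`, let `t = φ r` (`t ≠ r, r'`: if `t = r = φ r'` then `r = r'`) and `π x = t` for
`x ∈ {r, r'}`, `π x = x` otherwise; `cs_le` with the setoid `cs φ2 α2 (π x) (π y)`. -/
theorem pend [Finite D] {φ α : Perm D} {lam : D → V} (h : LM φ α lam) {d : D}
    (hd : α d ≠ d) (hp : φ (α d) = d) :
    ∃ φ2 α2 : Perm D, LM φ2 α2 lam ∧ Killed φ α φ2 α2 d (α d) ∧
      (∀ x, x ≠ d → x ≠ α d → φ x ≠ α d → φ2 x = φ x) ∧
      (∀ x, x ≠ d → φ x = α d → φ2 x = φ d) ∧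
      (∀ x y, x ≠ d → x ≠ α d → y ≠ d → y ≠ α d → cs φ α x y → cs φ2 α2 x y) := by
  sorry

end H63SO
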