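import Pool.Agent.Lib.H63SO.Defs

set_option autoImplicit false

/-!
# Strict orders of planar bipartite maps: removal of the dead darts, counting
-/

namespace H63SO

open Equiv Equiv.Perm H71S

variable {D V : Type}

/-- PROOF. Surjection `Quotient (SameCycle.setoid fs) ⊕ {d // ¬ P d} → Quotient (SameCycle.setoid f)`,
`[x] ↦ [x]` (`Quotient.lift`, `sc_le`), `d ↦ [d]`; `Nat.card_le_card_of_surjective`, `Nat.card_sum`. -/
theorem cyc_sub [Finite D] (f : Perm D) (P : D → Prop) (fs : Perm {d // P d})
    (h : ∀ x, (fs x : D) = f x) : cyc f ≤ cyc fs + Nat.card {d // ¬ P d} := by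
  sorry

/-- PROOF. Surjection `Quotient (cs f g) → Quotient (cs fs gs) ⊕ {d // ¬ P d}`: `[d] ↦ inl [d]` if `P d`,
`inr d` if not; well defined by `cs_le` (the setoid is the kernel of this map on `D`). -/
theorem comps_sub [Finite D] (f g : Perm D) (P : D → Prop) (fs gs : Perm {d // P d})
    (hf : ∀ x, (fs x : D) = f x) (hg : ∀ x, (gs x : D) = g x)
    (hfix : ∀ d, ¬ P d → f d = d ∧ g d = d) :
    comps fs gs + Nat.card {d // ¬ P d} ≤ comps f g := by
  sorry

end H63SO
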